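import Pool.Agent.H288R3.QM.Force

/-!
A binary tree of bars disjoint from the c.e. tree which compute only computable functions.
-/

set_option autoImplicit false

namespace Pool.Agent.Y471.QMT

open Encodable Pool.Agent.Helper446 Pool.Agent.Helper446.RE Pool.Agent.Helper446.CB
open Pool.Agent.H288R3.QM

/-- The step of the forcing construction. -/
theorem step_exists' {Θ : ℕ × (ℕ × List (List ℕ)) → Prop} (hΘ : REPred Θ) {D : Set (List ℕ)}
    (l m : ℕ) (hD : REPred fun τ => τ ∈ D) :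
    ∃ (D' : Set (List ℕ)) (m' : ℕ), (REPred fun τ => τ ∈ D') ∧ D ⊆ D' ∧ m ≤ m' ∧
      (∀ τ ∈ D', τ ∈ D ∨ Free l m τ) ∧ (∃ h, 0 < h ∧ Block l h ⊆ D') ∧
      (∃ L : List (List ℕ), ∀ τ ∈ D', τ ∈ D ∨ hd τ = l ∨ τ ∈ L) ∧
      ∀ V : Set (List ℕ), D' ⊆ V → (∀ τ ∈ V, τ ∈ D' ∨ Free (l + 1) m' τ) →
        ∀ f, Gives Θ V f → Computable f := by
  classical
  let U : ℕ × (ℕ × List (List ℕ)) → Prop := fun x =>
    (∀ τ ∈ x.2.2, τ ≠ [] ∧ l ≤ hd τ ∧ m < τ.length) ∧
    ∃ E : List (List ℕ), Θ (x.1, (x.2.1, E)) ∧ ∀ τ ∈ E, τ ∈ D ∨ τ ∈ x.2.2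
  have hU : REPred U := by
    refine RE.and ?_ ?_
    · refine RE.all_mem (p := fun (x : ℕ × (ℕ × List (List ℕ))) (τ : List ℕ) =>
        τ ≠ [] ∧ l ≤ hd τ ∧ m < τ.length) ?_ (l := fun x => x.2.2) (by fun_prop)
      exact RE.and (RE.ne (by fun_prop) (by fun_prop)) (RE.and (RE.le (by fun_prop) (by fun_prop))
        (RE.lt (by fun_prop) (by fun_prop)))
    · refine RE.ex (p := fun (x : ℕ × (ℕ × List (List ℕ))) (E : List (List ℕ)) =>
        Θ (x.1, (x.2.1, E)) ∧ ∀ τ ∈ E, τ ∈ D ∨ τ ∈ x.2.2) ?_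
      refine RE.and ?_ ?_
      · exact RE.comp hΘ (f := fun y : (ℕ × (ℕ × List (List ℕ))) × List (List ℕ) =>
          (y.1.1, (y.1.2.1, y.2))) (by fun_prop)
      · refine RE.all_mem (p := fun (y : (ℕ × (ℕ × List (List ℕ))) × List (List ℕ))
          (τ : List ℕ) => τ ∈ D ∨ τ ∈ y.1.2.2) ?_ (l := fun y => y.2) (by fun_prop)
        exact RE.or (RE.comp hD (by fun_prop)) (RE.mem_list (by fun_prop) (by fun_prop))
  -- the key consequence: uses of `V` give elements of `U`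
  have key : ∀ (D' : Set (List ℕ)) (m' : ℕ), D ⊆ D' → m ≤ m' →
      ∀ V : Set (List ℕ), (∀ τ ∈ V, τ ∈ D ∨ Free l m' τ) → ∀ n v E, Θ (n, (v, E)) →
        (∀ τ ∈ E, τ ∈ V) → ∃ F, U (n, (v, F)) ∧ (∀ τ ∈ F, Free l m' τ) := by
    intro D' m' _ hm V hV n v E hE hEV
    refine ⟨E.filter (fun τ => τ ∉ D), ⟨?_, E, hE, ?_⟩, ?_⟩
    · intro τ hτ
      rw [List.mem_filter] at hτ
      rcases hV τ (hEV τ hτ.1) with h | h
      · exact absurd h (by simpa using hτ.2)
      · exact ⟨h.2.1, h.2.2.1, lt_of_le_of_lt hm h.2.2.2⟩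
    · intro τ hτ
      by_cases h : τ ∈ D
      · exact Or.inl h
      · right
        rw [List.mem_filter]
        exact ⟨hτ, by simpa using h⟩
    · intro τ hτ
      rw [List.mem_filter] at hτ
      rcases hV τ (hEV τ hτ.1) with h | h
      · exact absurd h (by simpa using hτ.2)
      · exact h
  rcases dichotomy hU with ⟨n, k, hA⟩ | ⟨g, hg, hB⟩
  · -- stuck: the operator does not give a total function
    obtain ⟨h, h0, hfree⟩ := block_free l (max m k)
    refine ⟨D ∪ Block l h, max m k, RE.or hD (block_re l h), Set.subset_union_left,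
      le_max_left _ _, ?_, ⟨h, h0, Set.subset_union_right⟩,
      ⟨[], fun τ hτ => hτ.elim Or.inl fun h1 => Or.inr (Or.inl h1.1)⟩, ?_⟩
    · rintro τ (hτ | hτ)
      · exact Or.inl hτ
      · obtain ⟨h1, h2, h3, h4⟩ := hfree τ hτ
        exact Or.inr ⟨h1, h2, h3, lt_of_le_of_lt (le_max_left _ _) h4⟩
    · intro V hDV hV f hf
      exfalso
      obtain ⟨E, hE, hEV⟩ := (hf n (f n)).1 rfl
      have hV' : ∀ τ ∈ V, τ ∈ D ∨ Free l (max m k) τ := by
        intro τ hτ
        rcases hV τ hτ with (h1 | h1) | h1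
        · exact Or.inl h1
        · exact Or.inr (hfree τ h1)
        · exact Or.inr ⟨h1.1, h1.2.1, by have := h1.2.2.1; omega, h1.2.2.2⟩
      obtain ⟨F, hF, hFree⟩ := key D (max m k) (Set.Subset.refl _) (le_max_left _ _) V hV'
        n (f n) E hE hEV
      obtain ⟨τ, hτ, hlen⟩ := hA (f n) F hF fun τ hτ => (hFree τ hτ).1
      have h1 := (hFree τ hτ).2.2.2
      have h2 := le_max_right m k
      omega
  · obtain ⟨h, h0, hfree⟩ := block_free l m
    by_cases hcase : ∃ n v F, U (n, (v, F)) ∧ (∀ τ ∈ F, τ ∉ SS) ∧ v ≠ g n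
    · -- the operator is inconsistent
      obtain ⟨n, v, F, hF, hFS, hv⟩ := hcase
      obtain ⟨F', hF', hFS'⟩ := hB n
      refine ⟨D ∪ (Block l h ∪ {τ | τ ∈ F ++ F'}), m, RE.or hD (RE.or (block_re l h)
        (RE.mem_list (by fun_prop) (by fun_prop))), Set.subset_union_left,
        le_rfl, ?_, ⟨h, h0, ?_⟩, ⟨F ++ F', ?_⟩, ?_⟩
      · rintro τ (hτ | hτ | hτ)
        · exact Or.inl hτ
        · exact Or.inr (hfree τ hτ)
        · right
          rcases List.mem_append.1 (show τ ∈ F ++ F' from hτ) with h1 | h1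
          · exact ⟨hFS τ h1, hF.1 τ h1⟩
          · exact ⟨hFS' τ h1, hF'.1 τ h1⟩
      · exact fun τ hτ => Or.inr (Or.inl hτ)
      · rintro τ (hτ | hτ | hτ)
        · exact Or.inl hτ
        · exact Or.inr (Or.inl hτ.1)
        · exact Or.inr (Or.inr hτ)
      · intro V hDV _ f hf
        exfalso
        obtain ⟨-, E, hE, hED⟩ := hF
        obtain ⟨-, E', hE', hED'⟩ := hF'
        have h1 : f n = v := (hf n v).2 ⟨E, hE, fun τ hτ => hDV (by
          rcases hED τ hτ with h1 | h1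
          · exact Or.inl h1
          · exact Or.inr (Or.inr (List.mem_append_left _ h1)))⟩
        have h2 : f n = g n := (hf n (g n)).2 ⟨E', hE', fun τ hτ => hDV (by
          rcases hED' τ hτ with h1 | h1
          · exact Or.inl h1
          · exact Or.inr (Or.inr (List.mem_append_right _ h1)))⟩
        exact hv (h1.symm.trans h2)
    · -- the operator gives a computable function
      push Not at hcase
      refine ⟨D ∪ Block l h, m, RE.or hD (block_re l h), Set.subset_union_left,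
        le_rfl, ?_, ⟨h, h0, Set.subset_union_right⟩,
      ⟨[], fun τ hτ => hτ.elim Or.inl fun h1 => Or.inr (Or.inl h1.1)⟩, ?_⟩
      · rintro τ (hτ | hτ)
        · exact Or.inl hτ
        · exact Or.inr (hfree τ hτ)
      · intro V hDV hV f hf
        have hV' : ∀ τ ∈ V, τ ∈ D ∨ Free l m τ := by
          intro τ hτ
          rcases hV τ hτ with (h1 | h1) | h1
          · exact Or.inl h1
          · exact Or.inr (hfree τ h1)
          · exact Or.inr ⟨h1.1, h1.2.1, by have := h1.2.2.1; omega, h1.2.2.2⟩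
        refine hg.of_eq fun n => ?_
        obtain ⟨E, hE, hEV⟩ := (hf n (f n)).1 rfl
        obtain ⟨F, hF, hFree⟩ := key D m (Set.Subset.refl _) le_rfl V hV' n (f n) E hE hEV
        exact (hcase n (f n) F hF fun τ hτ => (hFree τ hτ).1).symm


/-- The states: only finitely many strings with first entry at least `i`. -/
abbrev FSt (i : ℕ) : Type := {x : Set (List ℕ) × ℕ // (REPred fun τ => τ ∈ x.1) ∧
  {τ | τ ∈ x.1 ∧ i ≤ hd τ}.Finite}

/-- Relation between consecutive states. -/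
def Good (i : ℕ) (x : FSt i) (y : FSt (i + 1)) : Prop :=
  x.1.1 ⊆ y.1.1 ∧ x.1.2 ≤ y.1.2 ∧
      (∀ τ ∈ y.1.1, τ ∈ x.1.1 ∨ Free i x.1.2 τ) ∧ (∃ h, 0 < h ∧ Block i h ⊆ y.1.1) ∧
      ∀ V : Set (List ℕ), y.1.1 ⊆ V → (∀ τ ∈ V, τ ∈ y.1.1 ∨ Free (i + 1) y.1.2 τ) →
        ∀ f, Gives (Th i) V f → Computable f

theorem fstep (i : ℕ) (x : FSt i) : ∃ y : FSt (i + 1), Good i x y := by
  obtain ⟨D', m', h1, h2, h3, h4, h5, ⟨L, hL⟩, h6⟩ := step_exists' (wst_re i) i x.1.2 x.2.1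
  refine ⟨⟨(D', m'), h1, ?_⟩, h2, h3, h4, h5, h6⟩
  refine (x.2.2.union (List.finite_toSet L)).subset ?_
  rintro τ ⟨hτ, hh⟩
  rcases hL τ hτ with h | h | h
  · exact Or.inl ⟨h, by omega⟩
  · omega
  · exact Or.inr h

theorem pick (i : ℕ) (y : FSt (i + 1)) : ∃ τ, Free (i + 1) y.1.2 τ ∧ τ ∉ y.1.1 := by
  obtain ⟨h, h0, hfree⟩ := block_free (i + 1) (max y.1.2 1)
  have h2 : 2 ≤ h := by
    have hm : (i + 1) :: List.replicate (h - 1) 0 ∈ Block (i + 1) h := by
      refine ⟨by simp [hd], ?_⟩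
      rw [List.length_cons, List.length_replicate]
      omega
    have h3 := (hfree _ hm).2.2.2
    rw [hm.2] at h3
    have := le_max_right y.1.2 1
    omega
  let g : ℕ → List ℕ := fun x => (i + 1) :: x :: List.replicate (h - 2) 0
  have hinj : Function.Injective g := by
    intro a b hab
    have := List.cons_eq_cons.1 hab
    exact (List.cons_eq_cons.1 this.2).1
  have hmem : ∀ x, g x ∈ Block (i + 1) h := by
    intro x
    refine ⟨by simp [hd, g], ?_⟩
    show ((i + 1) :: x :: List.replicate (h - 2) 0).length = h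
    rw [List.length_cons, List.length_cons, List.length_replicate]
    omega
  have hex : ∃ x, g x ∉ {τ | τ ∈ y.1.1 ∧ i + 1 ≤ hd τ} := by
    by_contra hcon
    push Not at hcon
    exact (Set.infinite_of_injective_forall_mem hinj hcon) y.2.2
  obtain ⟨x, hx⟩ := hex
  have hf := hfree _ (hmem x)
  refine ⟨g x, ⟨hf.1, hf.2.1, hf.2.2.1, lt_of_le_of_lt (le_max_left _ _) hf.2.2.2⟩, fun hy => ?_⟩
  exact hx ⟨hy, hf.2.2.1⟩

theorem fstep2 (i : ℕ) (x : FSt i) : ∃ (y0 y1 : FSt (i + 1)) (τ : List ℕ), Good i x y0 ∧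
    Good i x y1 ∧ τ ∈ y1.1.1 ∧ τ ∉ y0.1.1 ∧ τ.length ≤ y0.1.2 := by
  obtain ⟨y, hy⟩ := fstep i x
  obtain ⟨τ, hτ, hτy⟩ := pick i y
  obtain ⟨g1, g2, g3, ⟨h, h0, g4⟩, g5⟩ := hy
  refine ⟨⟨(y.1.1, max y.1.2 τ.length), y.2.1, y.2.2⟩,
    ⟨(y.1.1 ∪ {σ | σ ∈ [τ]}, y.1.2), RE.or y.2.1 (RE.mem_list (by fun_prop) (by fun_prop)), ?_⟩,
    τ, ⟨g1, g2.trans (le_max_left _ _), g3, ⟨h, h0, g4⟩, ?_⟩,
    ⟨fun σ hσ => Or.inl (g1 hσ), g2, ?_, ⟨h, h0, fun σ hσ => Or.inl (g4 hσ)⟩, ?_⟩, ?_, hτy,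
    le_max_right _ _⟩
  · refine (y.2.2.union (List.finite_toSet [τ])).subset ?_
    rintro σ ⟨hσ | hσ, hh⟩
    · exact Or.inl ⟨hσ, hh⟩
    · exact Or.inr hσ
  · intro V h1 h2 f hf
    refine g5 V h1 (fun σ hσ => ?_) f hf
    rcases h2 σ hσ with h3 | h3
    · exact Or.inl h3
    · exact Or.inr ⟨h3.1, h3.2.1, h3.2.2.1, lt_of_le_of_lt (le_max_left _ _) h3.2.2.2⟩
  · rintro σ (hσ | hσ)
    · exact g3 σ hσ
    · have hσ' : σ = τ := List.mem_singleton.1 hσ
      subst hσ'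
      refine Or.inr ⟨hτ.1, hτ.2.1, ?_, lt_of_le_of_lt g2 hτ.2.2.2⟩
      have := hτ.2.2.1
      omega
  · intro V h1 h2 f hf
    refine g5 V (fun σ hσ => h1 (Or.inl hσ)) (fun σ hσ => ?_) f hf
    rcases h2 σ hσ with (h3 | h3) | h3
    · exact Or.inl h3
    · have hσ' : σ = τ := List.mem_singleton.1 h3
      subst hσ'
      exact Or.inr hτ
    · exact Or.inr h3
  · exact Or.inr (List.mem_singleton.2 rfl)

/-- next state, bit `false` -/
noncomputable def Y0 (i : ℕ) (x : FSt i) : FSt (i + 1) := (fstep2 i x).choose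

/-- next state, bit `true` -/
noncomputable def Y1 (i : ℕ) (x : FSt i) : FSt (i + 1) := (fstep2 i x).choose_spec.choose

/-- the string that separates the two -/
noncomputable def T (i : ℕ) (x : FSt i) : List ℕ := (fstep2 i x).choose_spec.choose_spec.choose

theorem YT_spec (i : ℕ) (x : FSt i) : Good i x (Y0 i x) ∧ Good i x (Y1 i x) ∧
    T i x ∈ (Y1 i x).1.1 ∧ T i x ∉ (Y0 i x).1.1 ∧ (T i x).length ≤ (Y0 i x).1.2 :=
  (fstep2 i x).choose_spec.choose_spec.choose_spec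

/-- The sequence of states for the bits `b`. -/
noncomputable def stt (b : ℕ → Bool) : (i : ℕ) → FSt i
  | 0 => ⟨(∅, 0), by simpa using RE.const False, by simp⟩
  | i + 1 => if b i = true then Y1 i (stt b i) else Y0 i (stt b i)

theorem stt_true (b : ℕ → Bool) (i : ℕ) (h : b i = true) : stt b (i + 1) = Y1 i (stt b i) := by
  rw [stt, if_pos h]

theorem stt_false (b : ℕ → Bool) (i : ℕ) (h : b i = false) : stt b (i + 1) = Y0 i (stt b i) := by
  rw [stt, if_neg (by rw [h]; decide)]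

theorem stt_good (b : ℕ → Bool) (i : ℕ) : Good i (stt b i) (stt b (i + 1)) := by
  cases h : b i with
  | true => rw [stt_true b i h]; exact (YT_spec i _).2.1
  | false => rw [stt_false b i h]; exact (YT_spec i _).1

theorem stt_congr (b b' : ℕ → Bool) (n : ℕ) : (∀ k, k < n → b k = b' k) → stt b n = stt b' n := by
  induction n with
  | zero => intro _; rfl
  | succ n ih =>
    intro h
    have e := ih fun k hk => h k (by omega)
    have hb := h n (by omega)
    cases hn : b n with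
    | true => rw [stt_true b n hn, stt_true b' n (by rw [← hb, hn]), e]
    | false => rw [stt_false b n hn, stt_false b' n (by rw [← hb, hn]), e]

/-- The `i`-th part. -/
noncomputable def D (b : ℕ → Bool) (i : ℕ) : Set (List ℕ) := (stt b i).1.1

/-- The `i`-th bound. -/
noncomputable def M (b : ℕ → Bool) (i : ℕ) : ℕ := (stt b i).1.2

theorem D_succ (b : ℕ → Bool) (i : ℕ) : D b i ⊆ D b (i + 1) ∧ M b i ≤ M b (i + 1) ∧
      (∀ τ ∈ D b (i + 1), τ ∈ D b i ∨ Free i (M b i) τ) ∧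
      (∃ h, 0 < h ∧ Block i h ⊆ D b (i + 1)) ∧
      ∀ V : Set (List ℕ), D b (i + 1) ⊆ V →
        (∀ τ ∈ V, τ ∈ D b (i + 1) ∨ Free (i + 1) (M b (i + 1)) τ) →
        ∀ f, Gives (Th i) V f → Computable f :=
  stt_good b i

/-- The bar. -/
noncomputable def V (b : ℕ → Bool) : Set (List ℕ) := ⋃ i, D b i

theorem D_later (b : ℕ → Bool) {i j : ℕ} (h : i ≤ j) : M b i ≤ M b j ∧
    ∀ τ ∈ D b j, τ ∈ D b i ∨ Free i (M b i) τ := by
  induction j, h using Nat.le_induction with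
  | base => exact ⟨le_rfl, fun τ hτ => Or.inl hτ⟩
  | succ j hij ih =>
    obtain ⟨-, h2, h3, -, -⟩ := D_succ b j
    refine ⟨ih.1.trans h2, fun τ hτ => ?_⟩
    rcases h3 τ hτ with h4 | h4
    · exact ih.2 τ h4
    · exact Or.inr ⟨h4.1, h4.2.1, hij.trans h4.2.2.1, lt_of_le_of_lt ih.1 h4.2.2.2⟩

theorem D_mono (b : ℕ → Bool) {i j : ℕ} (h : i ≤ j) : D b i ⊆ D b j := by
  induction j, h using Nat.le_induction with
  | base => exact Set.Subset.refl _
  | succ j hij ih => exact Set.Subset.trans ih (D_succ b j).1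

theorem V_free (b : ℕ → Bool) (i : ℕ) : ∀ τ ∈ V b, τ ∈ D b i ∨ Free i (M b i) τ := by
  intro τ hτ
  obtain ⟨j, hj⟩ := Set.mem_iUnion.1 hτ
  rcases le_total i j with h | h
  · exact (D_later b h).2 τ hj
  · exact Or.inl (D_mono b h hj)

theorem V_disj (b : ℕ → Bool) : ∀ τ ∈ V b, τ ∉ SS := by
  intro τ hτ
  rcases V_free b 0 τ hτ with h | h
  · exact absurd h (by unfold D stt; simp)
  · exact h.1

theorem V_bar (b : ℕ → Bool) (g : ℕ → ℕ) : ∃ k, seg g k ∈ V b := by
  obtain ⟨-, -, -, ⟨h, h0, hb⟩, -⟩ := D_succ b (g 0)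
  refine ⟨h, Set.mem_iUnion.2 ⟨g 0 + 1, hb ⟨hd_seg g h0, seg_length g h⟩⟩⟩

theorem V_functions (b : ℕ → Bool) {Θ : ℕ × (ℕ × List (List ℕ)) → Prop} (hΘ : REPred Θ)
    {f : ℕ → ℕ} (hf : Gives Θ (V b) f) : Computable f := by
  obtain ⟨i, hi⟩ := wst_univ hΘ
  obtain ⟨-, -, -, -, h⟩ := D_succ b i
  refine h (V b) (Set.subset_iUnion _ _) (V_free b (i + 1)) f fun n v => ?_
  rw [hf n v]
  refine exists_congr fun E => and_congr_left fun _ => ?_
  exact hi _

theorem V_ne (b b' : ℕ → Bool) (n : ℕ) (h : ∀ k, k < n → b k = b' k) (h0 : b n = false)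
    (h1 : b' n = true) : V b ≠ V b' := by
  intro heq
  have e := stt_congr b b' n h
  obtain ⟨-, -, s1, s2, s3⟩ := YT_spec n (stt b n)
  have m1 : T n (stt b n) ∈ V b' := by
    refine Set.mem_iUnion.2 ⟨n + 1, ?_⟩
    show T n (stt b n) ∈ (stt b' (n + 1)).1.1
    rw [stt_true b' n h1, ← e]
    exact s1
  rw [← heq] at m1
  rcases V_free b (n + 1) _ m1 with h2 | h2
  · have h3 : T n (stt b n) ∈ (stt b (n + 1)).1.1 := h2
    rw [stt_false b n h0] at h3
    exact s2 h3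
  · have h3 : (stt b (n + 1)).1.2 < (T n (stt b n)).length := h2.2.2.2
    rw [stt_false b n h0] at h3
    omega

theorem V_injective : Function.Injective V := by
  intro b b' hbb
  by_contra hne
  have hex : ∃ n, b n ≠ b' n := by
    by_contra hcon
    push Not at hcon
    exact hne (funext hcon)
  classical
  have h1 : b (Nat.find hex) ≠ b' (Nat.find hex) := Nat.find_spec hex
  have h2 : ∀ k, k < Nat.find hex → b k = b' k := fun k hk => by
    by_contra hc
    exact Nat.find_min hex hk hc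
  cases hb : b (Nat.find hex) with
  | true =>
    cases hb' : b' (Nat.find hex) with
    | true => exact h1 (by rw [hb, hb'])
    | false => exact V_ne b' b _ (fun k hk => (h2 k hk).symm) hb' hb hbb.symm
  | false =>
    cases hb' : b' (Nat.find hex) with
    | true => exact V_ne b b' _ h2 hb hb' hbb
    | false => exact h1 (by rw [hb, hb'])

end Pool.Agent.Y471.QMT
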